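import Pool.Agent.TH927.CM.Main

/-!
# MP_768c9c_nt: the order `x^(-1/2)` for CMO functions

Either some CMO function has partial sums `O(x^(-1/2-c))` with `c > 0`, or the Riemann hypothesis
fails while no `L(s, χ)`, `χ` non-principal, has a zero with real part `> 1/2`.
-/

set_option autoImplicit false

namespace Pool.Agent.Results.MP_768c9c_nt.BeyondSquareRoot

open Finset Filter Topology

/-- `f` (only its values at `n ≥ 1` matter) is a CMO function: it is completely multiplicative and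
`∑ f(n)` converges with sum `0` -/
structure IsCMO (f : ℕ → ℂ) : Prop where
  one : f 1 = 1
  mul : ∀ m n : ℕ, 1 ≤ m → 1 ≤ n → f (m * n) = f m * f n
  sum_zero : Tendsto (fun N : ℕ => ∑ n ∈ Icc 1 N, f n) atTop (𝓝 0)

/-- `S_f(x) = ∑_{n ≤ x} f(n)` is `O(x^(-1/2-c))` for some `c > 0` -/
def BeatsSquareRoot (f : ℕ → ℂ) : Prop := ∃ c C : ℝ, 0 < c ∧ 0 < C ∧
  ∀ x : ℝ, 1 ≤ x → ‖∑ n ∈ Icc 1 ⌊x⌋₊, f n‖ ≤ C * x ^ (-(1 / 2 : ℝ) - c)

theorem of_conclC (h : Pool.Agent.TH927.CM.ConclC) : ∃ f : ℕ → ℂ, IsCMO f ∧ BeatsSquareRoot f := by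
  obtain ⟨f, hf, c, C, hc, hC, hb⟩ := h
  exact ⟨f, ⟨hf.one, hf.mul, hf.sum_zero⟩, c, C, hc, hC, fun x hx => hb x hx⟩

/-- the disjunction -/
theorem result :
    (∃ f : ℕ → ℂ, IsCMO f ∧ BeatsSquareRoot f) ∨
    (¬ RiemannHypothesis ∧
      ∀ (q : ℕ) [NeZero q] (χ : DirichletCharacter ℂ q), χ ≠ 1 →
        ∀ s : ℂ, 1 / 2 < s.re → DirichletCharacter.LFunction χ s ≠ 0) := by
  by_cases hRH : RiemannHypothesis
  · exact Or.inl (of_conclC (Pool.Agent.TH927.CM.rh_concl hRH))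
  by_cases hG : ∀ (q : ℕ) [NeZero q] (χ : DirichletCharacter ℂ q), χ ≠ 1 →
        ∀ s : ℂ, 1 / 2 < s.re → DirichletCharacter.LFunction χ s ≠ 0
  · exact Or.inr ⟨hRH, hG⟩
  · push Not at hG
    obtain ⟨q, hq, χ, hχ, s, hs, h0⟩ := hG
    exact Or.inl (of_conclC (Pool.Agent.TH142.J884.CHI_c q χ hχ s hs h0))

end Pool.Agent.Results.MP_768c9c_nt.BeyondSquareRoot
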